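import Mathlib

/-!
# Compositions of proximally irreducible extensions are proximally irreducible
-/

namespace Pool.Agent.Results.MP_d4114f_an.CompositionProxIrreducible

open Set Topology

set_option linter.unusedSectionVars false

/-- An affine `G`-flow: a compact convex set `carrier` in `E`, with a continuous action of `G` by
affine homeomorphisms. (The values of `act` outside of `carrier` are irrelevant.) -/
structure AffineFlow (G : Type*) [Group G] [TopologicalSpace G] (E : Type*) [AddCommGroup E]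
    [Module ℝ E] [TopologicalSpace E] where
  carrier : Set E
  isCompact : IsCompact carrier
  convex : Convex ℝ carrier
  act : G → E → E
  act_mem : ∀ g, ∀ x ∈ carrier, act g x ∈ carrier
  one_act : ∀ x ∈ carrier, act 1 x = x
  mul_act : ∀ g h, ∀ x ∈ carrier, act (g * h) x = act g (act h x)
  continuous_act : ContinuousOn (fun p : G × E => act p.1 p.2) (Set.univ ×ˢ carrier)
  affine_act : ∀ g, ∀ x ∈ carrier, ∀ y ∈ carrier, ∀ a b : ℝ, 0 ≤ a → 0 ≤ b → a + b = 1 →
    act g (a • x + b • y) = a • act g x + b • act g y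

section Defs

variable {G : Type*} [Group G] [TopologicalSpace G]
  {E₁ : Type*} [AddCommGroup E₁] [Module ℝ E₁] [TopologicalSpace E₁]
  {E₂ : Type*} [AddCommGroup E₂] [Module ℝ E₂] [TopologicalSpace E₂]

/-- An affine subflow. -/
structure IsAffineSubflow (F : AffineFlow G E₁) (C : Set E₁) : Prop where
  subset : C ⊆ F.carrier
  isCompact : IsCompact C
  convex : Convex ℝ C
  act_mem : ∀ g, ∀ x ∈ C, F.act g x ∈ C

/-- The closure of the set of extreme points. -/
def extBar (F : AffineFlow G E₁) : Set E₁ := closure (F.carrier.extremePoints ℝ)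

/-- `φ` (restricted to `F₁`) is an affine extension `F₁ → F₂`. -/
structure IsAffineExtension (F₁ : AffineFlow G E₁) (F₂ : AffineFlow G E₂) (φ : E₁ → E₂) :
    Prop where
  continuousOn : ContinuousOn φ F₁.carrier
  image_eq : φ '' F₁.carrier = F₂.carrier
  affine : ∀ x ∈ F₁.carrier, ∀ y ∈ F₁.carrier, ∀ a b : ℝ, 0 ≤ a → 0 ≤ b → a + b = 1 →
    φ (a • x + b • y) = a • φ x + b • φ y
  equivariant : ∀ g, ∀ x ∈ F₁.carrier, φ (F₁.act g x) = F₂.act g (φ x)

/-- Proximal irreducibility of `φ : F₁ → F₂`. -/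
def ProximallyIrreducible (F₁ : AffineFlow G E₁) (F₂ : AffineFlow G E₂) (φ : E₁ → E₂) : Prop :=
  ∀ C : Set E₁, IsAffineSubflow F₁ C →
    (∀ y ∈ extBar F₂, (C ∩ convexHull ℝ (extBar F₁ ∩ φ ⁻¹' {y})).Nonempty) → C = F₁.carrier

end Defs

/-! ### Milman's converse to the Krein–Milman theorem -/

section Milman

variable {E : Type*} [AddCommGroup E] [Module ℝ E] [TopologicalSpace E] [T2Space E]
  [IsTopologicalAddGroup E] [ContinuousSMul ℝ E] [LocallyConvexSpace ℝ E]

lemma isCompact_convexJoin {s t : Set E} (hs : IsCompact s) (ht : IsCompact t) :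
    IsCompact (convexJoin ℝ s t) := by
  have h1 : convexJoin ℝ s t =
      (fun p : ℝ × E × E => (1 - p.1) • p.2.1 + p.1 • p.2.2) '' (Icc (0 : ℝ) 1 ×ˢ s ×ˢ t) := by
    ext x
    rw [mem_convexJoin]
    constructor
    · rintro ⟨a, ha, b, hb, hx⟩
      rw [segment_eq_image] at hx
      obtain ⟨θ, hθ, rfl⟩ := hx
      exact ⟨(θ, a, b), ⟨hθ, ha, hb⟩, rfl⟩
    · rintro ⟨⟨θ, a, b⟩, ⟨hθ, ha, hb⟩, rfl⟩
      refine ⟨a, ha, b, hb, ?_⟩
      rw [segment_eq_image]
      exact ⟨θ, hθ, rfl⟩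
  rw [h1]
  refine (isCompact_Icc.prod (hs.prod ht)).image ?_
  exact ((continuous_const.sub continuous_fst).smul (continuous_fst.comp continuous_snd)).add
    (continuous_fst.smul (continuous_snd.comp continuous_snd))

lemma ext_union {A B : Set E} (hK : IsCompact (closure (convexHull ℝ (A ∪ B)))) {x : E}
    (hx : x ∈ (closure (convexHull ℝ (A ∪ B))).extremePoints ℝ) :
    x ∈ closure (convexHull ℝ A) ∨ x ∈ closure (convexHull ℝ B) := by
  rcases A.eq_empty_or_nonempty with rfl | hA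
  · rw [empty_union] at hx
    exact Or.inr hx.1
  rcases B.eq_empty_or_nonempty with rfl | hB
  · rw [union_empty] at hx
    exact Or.inl hx.1
  have sA : closure (convexHull ℝ A) ⊆ closure (convexHull ℝ (A ∪ B)) :=
    closure_mono (convexHull_mono subset_union_left)
  have sB : closure (convexHull ℝ B) ⊆ closure (convexHull ℝ (A ∪ B)) :=
    closure_mono (convexHull_mono subset_union_right)
  have cA := hK.of_isClosed_subset isClosed_closure sA
  have cB := hK.of_isClosed_subset isClosed_closure sB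
  have hJ := isCompact_convexJoin cA cB
  have hnA : (closure (convexHull ℝ A)).Nonempty := (hA.mono (subset_convexHull ℝ A)).closure
  have hnB : (closure (convexHull ℝ B)).Nonempty := (hB.mono (subset_convexHull ℝ B)).closure
  have hsub : closure (convexHull ℝ (A ∪ B)) ⊆
      convexJoin ℝ (closure (convexHull ℝ A)) (closure (convexHull ℝ B)) := by
    apply closure_minimal _ hJ.isClosed
    apply convexHull_min
    · apply union_subset
      · exact ((subset_convexHull ℝ A).trans subset_closure).trans (subset_convexJoin_left hnB)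
      · exact ((subset_convexHull ℝ B).trans subset_closure).trans (subset_convexJoin_right hnA)
    · exact (convex_convexHull ℝ A).closure.convexJoin (convex_convexHull ℝ B).closure
  obtain ⟨a, ha, b, hb, hab⟩ := mem_convexJoin.1 (hsub hx.1)
  rcases (mem_extremePoints_iff_forall_segment.1 hx).2 a (sA ha) b (sB hb) hab with h | h
  · exact Or.inl (h ▸ ha)
  · exact Or.inr (h ▸ hb)

lemma ext_biUnion {ι : Type*} (s : Finset ι) (T : ι → Set E) {x : E}
    (hK : IsCompact (closure (convexHull ℝ (⋃ i ∈ s, T i))))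
    (hx : x ∈ (closure (convexHull ℝ (⋃ i ∈ s, T i))).extremePoints ℝ) :
    ∃ i ∈ s, x ∈ closure (convexHull ℝ (T i)) := by
  classical
  induction s using Finset.induction_on with
  | empty => simp at hx
  | insert a s ha ih =>
    rw [Finset.set_biUnion_insert] at hK hx
    rcases ext_union hK hx with h | h
    · exact ⟨a, Finset.mem_insert_self _ _, h⟩
    · have hsub : closure (convexHull ℝ (⋃ i ∈ s, T i)) ⊆
          closure (convexHull ℝ (T a ∪ ⋃ i ∈ s, T i)) :=
        closure_mono (convexHull_mono subset_union_right)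
      obtain ⟨i, hi, hx'⟩ := ih (hK.of_isClosed_subset isClosed_closure hsub)
        (inter_extremePoints_subset_extremePoints_of_subset hsub ⟨h, hx⟩)
      exact ⟨i, Finset.mem_insert_of_mem hi, hx'⟩

/-- Milman's theorem. -/
lemma milman {T : Set E} (hT : IsCompact T) (hK : IsCompact (closure (convexHull ℝ T))) :
    (closure (convexHull ℝ T)).extremePoints ℝ ⊆ T := by
  intro x hx
  by_contra hxT
  have hN : {u : E | x - u ∉ T} ∈ 𝓝 (0 : E) := by
    have : IsOpen {u : E | x - u ∉ T} :=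
      hT.isClosed.isOpen_compl.preimage (continuous_const.sub continuous_id)
    exact this.mem_nhds (by simpa using hxT)
  obtain ⟨F, hF, hFc, hFN⟩ := exists_mem_nhds_isClosed_subset hN
  obtain ⟨V, ⟨hV, hVc⟩, hVF⟩ := (LocallyConvexSpace.convex_basis_zero ℝ E).mem_iff.1 hF
  have hVF' : closure V ⊆ F := closure_minimal hVF hFc
  have hnb : ∀ t ∈ T, (fun y => y - t) ⁻¹' V ∈ 𝓝 t := by
    intro t _
    have : ContinuousAt (fun y : E => y - t) t := by fun_prop
    apply this
    simpa using hV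
  obtain ⟨s, hs, hcov⟩ := hT.elim_nhds_subcover (fun t => (fun y => y - t) ⁻¹' V) hnb
  have hTeq : T = ⋃ t ∈ s, (T ∩ (fun y => y - t) ⁻¹' closure V) := by
    apply Subset.antisymm
    · intro y hy
      obtain ⟨t, ht, hyt⟩ := mem_iUnion₂.1 (hcov hy)
      exact mem_iUnion₂.2 ⟨t, ht, hy, subset_closure hyt⟩
    · exact iUnion₂_subset fun t _ => inter_subset_left
  rw [hTeq] at hK hx
  obtain ⟨t, ht, hxt⟩ := ext_biUnion s _ hK hx
  have h1 : closure (convexHull ℝ (T ∩ (fun y => y - t) ⁻¹' closure V)) ⊆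
      (fun y => y - t) ⁻¹' closure V := by
    apply closure_minimal _ (isClosed_closure.preimage (continuous_id.sub continuous_const))
    apply convexHull_min inter_subset_right
    exact hVc.closure.affine_preimage (AffineMap.id ℝ E - AffineMap.const ℝ E t)
  have h2 := hFN (hVF' (h1 hxt))
  apply h2
  simpa using hs t ht

end Milman

/-! ### Affine maps on convex sets and extreme points -/

section Affine

variable {E : Type*} [AddCommGroup E] [Module ℝ E] {E' : Type*} [AddCommGroup E'] [Module ℝ E']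

lemma map_sum_of_affine {K : Set E} (hK : Convex ℝ K) {f : E → E'}
    (hf : ∀ x ∈ K, ∀ y ∈ K, ∀ a b : ℝ, 0 ≤ a → 0 ≤ b → a + b = 1 →
      f (a • x + b • y) = a • f x + b • f y) {ι : Type*} (s : Finset ι) (w : ι → ℝ) (v : ι → E)
    (hw : ∀ i ∈ s, 0 ≤ w i) (hw1 : ∑ i ∈ s, w i = 1) (hv : ∀ i ∈ s, v i ∈ K) :
    f (∑ i ∈ s, w i • v i) = ∑ i ∈ s, w i • f (v i) := by
  have hgr : Convex ℝ {p : E × E' | p.1 ∈ K ∧ f p.1 = p.2} := by
    rintro ⟨x, x'⟩ ⟨hx, hx'⟩ ⟨y, y'⟩ ⟨hy, hy'⟩ a b ha hb hab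
    refine ⟨hK hx hy ha hb hab, ?_⟩
    simp only at hx' hy' ⊢
    rw [Prod.fst_add, Prod.snd_add, Prod.smul_mk, Prod.smul_mk]
    simp only
    rw [hf x hx y hy a b ha hb hab, hx', hy']
  have h1 := hgr.sum_mem (t := s) (w := w) (z := fun i => (v i, f (v i))) hw hw1
    fun i hi => ⟨hv i hi, rfl⟩
  have h2 := h1.2
  rw [Prod.fst_sum, Prod.snd_sum] at h2
  exact h2

lemma eq_of_sum_extreme {K : Set E} (hK : Convex ℝ K) {x : E} (hx : x ∈ K.extremePoints ℝ)
    {ι : Type*} (s : Finset ι) (w : ι → ℝ) (v : ι → E)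
    (hw : ∀ i ∈ s, 0 ≤ w i) (hw1 : ∑ i ∈ s, w i = 1) (hv : ∀ i ∈ s, v i ∈ K)
    (h : ∑ i ∈ s, w i • v i = x) : ∀ i ∈ s, v i ≠ x → w i = 0 := by
  classical
  have hc := (hK.mem_extremePoints_iff_convex_sdiff.1 hx).2
  set I := s.filter fun i => v i ≠ x with hI
  have hsplit := Finset.sum_filter_add_sum_filter_not s (fun i => v i ≠ x) w
  have hsplit2 := Finset.sum_filter_add_sum_filter_not s (fun i => v i ≠ x) fun i => w i • v i
  have hnn : 0 ≤ ∑ i ∈ I, w i := Finset.sum_nonneg fun i hi => hw i (Finset.mem_filter.1 hi).1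
  by_contra hcon
  push Not at hcon
  obtain ⟨i₀, hi₀, hi₀x, hi₀w⟩ := hcon
  have hpos : 0 < ∑ i ∈ I, w i := by
    apply Finset.sum_pos' (fun i hi => hw i (Finset.mem_filter.1 hi).1)
    exact ⟨i₀, Finset.mem_filter.2 ⟨hi₀, hi₀x⟩, lt_of_le_of_ne (hw i₀ hi₀) (Ne.symm hi₀w)⟩
  have hcm := hc.centerMass_mem (t := I) (w := w) (z := v)
    (fun i hi => hw i (Finset.mem_filter.1 hi).1) hpos
    (fun i hi => ⟨hv i (Finset.mem_filter.1 hi).1, (Finset.mem_filter.1 hi).2⟩)
  apply hcm.2
  show I.centerMass w v = x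
  have h3 : ∑ i ∈ s with ¬ v i ≠ x, w i • v i = (∑ i ∈ s with ¬ v i ≠ x, w i) • x := by
    rw [Finset.sum_smul]
    apply Finset.sum_congr rfl
    intro i hi
    have := (Finset.mem_filter.1 hi).2
    rw [not_not] at this
    rw [this]
  rw [h3, h] at hsplit2
  have h4 : ∑ i ∈ I, w i • v i = (∑ i ∈ I, w i) • x := by
    have h5 : (∑ i ∈ s with ¬ v i ≠ x, w i) = 1 - ∑ i ∈ I, w i := by
      rw [← hw1, ← hsplit]
      ring
    rw [h5, sub_smul, one_smul] at hsplit2
    have : ∑ i ∈ I, w i • v i = x - (x - (∑ i ∈ I, w i) • x) := by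
      rw [eq_sub_iff_add_eq]
      exact hsplit2
    rw [this]
    abel
  rw [Finset.centerMass, h4, smul_smul, inv_mul_cancel₀ hpos.ne', one_smul]

end Affine

/-! ### Invariant sets -/

section Flow

variable {G : Type*} [Group G] [TopologicalSpace G]
  {E : Type*} [AddCommGroup E] [Module ℝ E] [TopologicalSpace E]

/-- Invariance of a subset. -/
def Inv (F : AffineFlow G E) (S : Set E) : Prop := ∀ g, ∀ x ∈ S, F.act g x ∈ S

lemma act_continuousOn (F : AffineFlow G E) (g : G) : ContinuousOn (F.act g) F.carrier := by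
  have h : ContinuousOn (fun x : E => ((g, x) : G × E)) F.carrier := by fun_prop
  exact F.continuous_act.comp h fun x hx => ⟨trivial, hx⟩

lemma act_inv_act (F : AffineFlow G E) (g : G) {x : E} (hx : x ∈ F.carrier) :
    F.act g⁻¹ (F.act g x) = x := by
  rw [← F.mul_act _ _ x hx, inv_mul_cancel, F.one_act x hx]

lemma act_act_inv (F : AffineFlow G E) (g : G) {x : E} (hx : x ∈ F.carrier) :
    F.act g (F.act g⁻¹ x) = x := by
  rw [← F.mul_act _ _ x hx, mul_inv_cancel, F.one_act x hx]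

lemma inv_ext (F : AffineFlow G E) : Inv F (F.carrier.extremePoints ℝ) := by
  intro g x hx
  refine ⟨F.act_mem g x hx.1, ?_⟩
  rintro y hy z hz ⟨a, b, ha, hb, hab, h⟩
  have h1 : x ∈ openSegment ℝ (F.act g⁻¹ y) (F.act g⁻¹ z) := by
    refine ⟨a, b, ha, hb, hab, ?_⟩
    rw [← F.affine_act g⁻¹ y hy z hz a b ha.le hb.le hab, h, act_inv_act F g hx.1]
  have h2 := hx.2 (F.act_mem _ y hy) (F.act_mem _ z hz) h1
  rw [← h2, act_act_inv F g hy]

lemma Inv.closure [T2Space E] {F : AffineFlow G E} {S : Set E} (hS : Inv F S)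
    (hsub : S ⊆ F.carrier) : Inv F (closure S) := by
  intro g
  have hcl : _root_.closure S ⊆ F.carrier := closure_minimal hsub F.isCompact.isClosed
  have h1 : F.act g '' _root_.closure S ⊆ _root_.closure (F.act g '' S) :=
    ((act_continuousOn F g).mono hcl).image_closure
  intro x hx
  exact closure_mono (image_subset_iff.2 fun y hy => hS g y hy) (h1 ⟨x, hx, rfl⟩)

lemma extBar_subset [T2Space E] (F : AffineFlow G E) : extBar F ⊆ F.carrier :=
  closure_minimal extremePoints_subset F.isCompact.isClosed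

lemma isCompact_extBar [T2Space E] (F : AffineFlow G E) : IsCompact (extBar F) :=
  F.isCompact.of_isClosed_subset isClosed_closure (extBar_subset F)

lemma inv_extBar [T2Space E] (F : AffineFlow G E) : Inv F (extBar F) :=
  (inv_ext F).closure extremePoints_subset

lemma isAffineSubflow_closure [T2Space E] [IsTopologicalAddGroup E] [ContinuousSMul ℝ E]
    (F : AffineFlow G E) {S : Set E} (hS : Inv F S)
    (hsub : S ⊆ F.carrier) : IsAffineSubflow F (closure (convexHull ℝ S)) := by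
  have hcl : closure (convexHull ℝ S) ⊆ F.carrier :=
    closure_minimal (convexHull_min hsub F.convex) F.isCompact.isClosed
  refine ⟨hcl, F.isCompact.of_isClosed_subset isClosed_closure hcl, (convex_convexHull ℝ S).closure,
    ?_⟩
  intro g
  have h1 : closure (convexHull ℝ S) ⊆
      F.carrier ∩ F.act g ⁻¹' closure (convexHull ℝ S) := by
    apply closure_minimal
    · apply convexHull_min
      · intro x hx
        exact ⟨hsub hx, subset_closure (subset_convexHull ℝ S (hS g x hx))⟩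
      · rintro x ⟨hx, hx'⟩ y ⟨hy, hy'⟩ a b ha hb hab
        refine ⟨F.convex hx hy ha hb hab, ?_⟩
        rw [mem_preimage, F.affine_act g x hx y hy a b ha hb hab]
        exact (convex_convexHull ℝ S).closure hx' hy' ha hb hab
    · exact (act_continuousOn F g).preimage_isClosed_of_isClosed F.isCompact.isClosed
        isClosed_closure
  exact fun x hx => (h1 hx).2

variable [T2Space E] [IsTopologicalAddGroup E] [ContinuousSMul ℝ E] [LocallyConvexSpace ℝ E]
  {E' : Type*} [AddCommGroup E'] [Module ℝ E'] [TopologicalSpace E'] [T2Space E']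

/-- The way in which proximal irreducibility is used. -/
lemma ext_subset {F : AffineFlow G E} {F' : AffineFlow G E'} {φ : E → E'}
    (hφ : ProximallyIrreducible F F' φ) {S : Set E} (hSc : IsCompact S) (hS : Inv F S)
    (hsub : S ⊆ F.carrier)
    (h : ∀ y ∈ extBar F', (closure (convexHull ℝ S) ∩
      convexHull ℝ (extBar F ∩ φ ⁻¹' {y})).Nonempty) :
    F.carrier.extremePoints ℝ ⊆ S := by
  have hsf := isAffineSubflow_closure F hS hsub
  have h1 := hφ _ hsf h
  have h2 := milman hSc hsf.isCompact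
  rwa [h1] at h2

/-- Extreme points lift to extreme points. -/
lemma exists_lift {F : AffineFlow G E} {F' : AffineFlow G E'} {φ : E → E'}
    (hφ : IsAffineExtension F F' φ) : ∀ y ∈ extBar F', ∃ x ∈ extBar F, φ x = y := by
  have hcl : IsClosed (φ '' extBar F) :=
    ((isCompact_extBar F).image_of_continuousOn (hφ.continuousOn.mono (extBar_subset F))).isClosed
  have h1 : F'.carrier.extremePoints ℝ ⊆ φ '' extBar F := by
    intro y hy
    obtain ⟨x₀, hx₀, hx₀y⟩ : y ∈ φ '' F.carrier := hφ.image_eq ▸ hy.1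
    have htc : IsCompact (F.carrier ∩ φ ⁻¹' {y}) := F.isCompact.of_isClosed_subset
      (hφ.continuousOn.preimage_isClosed_of_isClosed F.isCompact.isClosed isClosed_singleton)
      inter_subset_left
    obtain ⟨x, hx⟩ := htc.extremePoints_nonempty ⟨x₀, hx₀, hx₀y⟩
    refine ⟨x, subset_closure ⟨hx.1.1, ?_⟩, hx.1.2⟩
    rintro y₁ hy₁ y₂ hy₂ ⟨a, b, ha, hb, hab, hxe⟩
    have h2 : φ x = a • φ y₁ + b • φ y₂ := by
      rw [← hφ.affine y₁ hy₁ y₂ hy₂ a b ha.le hb.le hab, hxe]
    have hyy : φ x = y := hx.1.2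
    have h3 : φ y₁ = y ∧ φ y₂ = y := by
      rw [mem_extremePoints] at hy
      refine hy.2 _ (hφ.image_eq ▸ ⟨y₁, hy₁, rfl⟩) _ (hφ.image_eq ▸ ⟨y₂, hy₂, rfl⟩)
        ⟨a, b, ha, hb, hab, ?_⟩
      rw [← h2, hyy]
    exact hx.2 ⟨hy₁, h3.1⟩ ⟨hy₂, h3.2⟩ ⟨a, b, ha, hb, hab, hxe⟩
  intro y hy
  obtain ⟨x, hx, hxy⟩ := closure_minimal h1 hcl hy
  exact ⟨x, hx, hxy⟩

lemma inv_preimage {F : AffineFlow G E} {F' : AffineFlow G E'} {φ : E → E'}
    (hφ : IsAffineExtension F F' φ) {S : Set E} {T : Set E'} (hS : Inv F S) (hT : Inv F' T)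
    (hsub : S ⊆ F.carrier) : Inv F (S ∩ φ ⁻¹' T) := by
  rintro g x ⟨hx, hx'⟩
  refine ⟨hS g x hx, ?_⟩
  rw [mem_preimage, hφ.equivariant g x (hsub hx)]
  exact hT g _ hx'

lemma inv_image {F : AffineFlow G E} {F' : AffineFlow G E'} {φ : E → E'}
    (hφ : IsAffineExtension F F' φ) {S : Set E} (hS : Inv F S) 
    (hsub : S ⊆ F.carrier) : Inv F' (φ '' S) := by
  rintro g _ ⟨x, hx, rfl⟩
  exact ⟨F.act g x, hS g x hx, hφ.equivariant g x (hsub hx)⟩

lemma inv_diff {F : AffineFlow G E} {S T : Set E} (hS : Inv F S) (hT : Inv F T)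
    (hsub : S ⊆ F.carrier) : Inv F (S \ T) := by
  rintro g x ⟨hx, hx'⟩
  refine ⟨hS g x hx, fun h => hx' ?_⟩
  have := hT g⁻¹ _ h
  rwa [act_inv_act F g (hsub hx)] at this

lemma inv_union {F : AffineFlow G E} {S T : Set E} (hS : Inv F S) (hT : Inv F T) :
    Inv F (S ∪ T) := by
  rintro g x (hx | hx)
  · exact Or.inl (hS g x hx)
  · exact Or.inr (hT g x hx)

/-- Part (A). -/
lemma maps_extBar {F : AffineFlow G E} {F' : AffineFlow G E'} {φ : E → E'}
    (hφ : IsAffineExtension F F' φ) (hφp : ProximallyIrreducible F F' φ) :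
    ∀ x ∈ extBar F, φ x ∈ extBar F' := by
  have hcl : IsClosed (extBar F ∩ φ ⁻¹' extBar F') :=
    (hφ.continuousOn.mono (extBar_subset F)).preimage_isClosed_of_isClosed isClosed_closure
      isClosed_closure
  have hc : IsCompact (extBar F ∩ φ ⁻¹' extBar F') :=
    (isCompact_extBar F).of_isClosed_subset hcl inter_subset_left
  have h1 := ext_subset hφp hc (inv_preimage hφ (inv_extBar F) (inv_extBar F') (extBar_subset F))
    (inter_subset_left.trans (extBar_subset F)) ?_
  · exact fun x hx => (closure_minimal h1 hcl hx).2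
  · intro y hy
    obtain ⟨x, hx, rfl⟩ := exists_lift hφ y hy
    exact ⟨x, subset_closure (subset_convexHull _ _ ⟨hx, hy⟩), subset_convexHull _ _ ⟨hx, rfl⟩⟩

/-- Representations of points of `C` as convex combinations of `N+1` points of the closure of the
set of extreme points in a common fiber. -/
def Rep (F : AffineFlow G E) (χ : E → E') (C : Set E) (N : ℕ) :
    Set (stdSimplex ℝ (Fin (N + 1)) × (Fin (N + 1) → extBar F)) :=
  {p | (∀ i j, χ (p.2 i) = χ (p.2 j)) ∧ ∑ i, p.1.1 i • (p.2 i : E) ∈ C}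

omit [LocallyConvexSpace ℝ E] in
lemma isCompact_rep (F : AffineFlow G E) {χ : E → E'} (hχ : ContinuousOn χ F.carrier) {C : Set E}
    (hC : IsClosed C) (N : ℕ) : IsCompact (Rep F χ C N) := by
  have : CompactSpace (extBar F) := isCompact_iff_compactSpace.1 (isCompact_extBar F)
  have : CompactSpace (stdSimplex ℝ (Fin (N + 1))) :=
    isCompact_iff_compactSpace.1 (isCompact_stdSimplex ℝ _)
  have hχ' : Continuous fun v : extBar F => χ v :=
    (hχ.mono (extBar_subset F)).domRestrict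
  apply IsClosed.isCompact
  have heq : Rep F χ C N = (⋂ i, ⋂ j, {p | χ (p.2 i) = χ (p.2 j)}) ∩
      {p | ∑ i, p.1.1 i • (p.2 i : E) ∈ C} := by
    ext p
    simp only [Rep, mem_inter_iff, mem_iInter]
    rfl
  rw [heq]
  apply IsClosed.inter
  · refine isClosed_iInter fun i => isClosed_iInter fun j => ?_
    exact isClosed_eq (hχ'.comp ((continuous_apply i).comp continuous_snd))
      (hχ'.comp ((continuous_apply j).comp continuous_snd))
  · refine hC.preimage (f := fun p : stdSimplex ℝ (Fin (N + 1)) × (Fin (N + 1) → extBar F) =>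
      ∑ i, p.1.1 i • (p.2 i : E)) ?_
    refine continuous_finsetSum _ fun i _ => ?_
    exact ((continuous_apply i).comp (continuous_subtype_val.comp continuous_fst)).smul
      (continuous_subtype_val.comp ((continuous_apply i).comp continuous_snd))

omit [LocallyConvexSpace ℝ E] [IsTopologicalAddGroup E] [ContinuousSMul ℝ E] in
lemma rep_act {F : AffineFlow G E} {F' : AffineFlow G E'} {χ : E → E'}
    (hχ : IsAffineExtension F F' χ) {C : Set E} (hC : Inv F C) {N : ℕ} (g : G)
    {p : stdSimplex ℝ (Fin (N + 1)) × (Fin (N + 1) → extBar F)} (hp : p ∈ Rep F χ C N) :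
    ∃ q ∈ Rep F χ C N, ∑ i, q.1.1 i • (q.2 i : E) = F.act g (∑ i, p.1.1 i • (p.2 i : E)) ∧
      ∀ i, χ (q.2 i) = F'.act g (χ (p.2 i)) := by
  have h1 := map_sum_of_affine F.convex (F.affine_act g) Finset.univ p.1.1
    (fun i => (p.2 i : E)) (fun i _ => p.1.2.1 i) p.1.2.2
    fun i _ => extBar_subset F (p.2 i).2
  refine ⟨(p.1, fun i => ⟨F.act g (p.2 i), inv_extBar F g _ (p.2 i).2⟩), ⟨?_, ?_⟩, ?_, ?_⟩
  · intro i j
    simp only
    rw [hχ.equivariant g _ (extBar_subset F (p.2 i).2),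
      hχ.equivariant g _ (extBar_subset F (p.2 j).2), hp.1 i j]
  · simp only
    rw [← h1]
    exact hC g _ hp.2
  · exact h1.symm
  · intro i
    exact hχ.equivariant g _ (extBar_subset F (p.2 i).2)

omit [T2Space E] [IsTopologicalAddGroup E] [ContinuousSMul ℝ E] [LocallyConvexSpace ℝ E]
  [T2Space E'] in
lemma exists_rep {F : AffineFlow G E} {χ : E → E'} {C : Set E} {y : E'}
    (h : (C ∩ convexHull ℝ (extBar F ∩ χ ⁻¹' {y})).Nonempty) :
    ∃ N, ∃ p ∈ Rep F χ C N, ∀ i, χ (p.2 i) = y := by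
  obtain ⟨c, hc, hc'⟩ := h
  rw [mem_convexHull_iff_exists_fintype] at hc'
  obtain ⟨ι, _, w, z, hw, hw1, hz, hzc⟩ := hc'
  have hne : Nonempty ι := by
    by_contra hcon
    rw [not_nonempty_iff] at hcon
    simp at hw1
  obtain ⟨N, hN⟩ : ∃ N, Fintype.card ι = N + 1 :=
    Nat.exists_eq_succ_of_ne_zero Fintype.card_ne_zero
  let e : Fin (N + 1) ≃ ι := (Fintype.equivFinOfCardEq hN).symm
  refine ⟨N, (⟨fun i => w (e i), fun i => hw _, ?_⟩, fun i => ⟨z (e i), (hz _).1⟩), ⟨?_, ?_⟩, ?_⟩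
  · rw [Equiv.sum_comp e]
    exact hw1
  · intro i j
    exact (hz (e i)).2.trans (hz (e j)).2.symm
  · simp only
    rw [Equiv.sum_comp e fun i => w i • z i, hzc]
    exact hc
  · intro i
    exact (hz (e i)).2

omit [T2Space E] [IsTopologicalAddGroup E] [ContinuousSMul ℝ E] [LocallyConvexSpace ℝ E]
  [T2Space E'] in
lemma rep_nonempty {F : AffineFlow G E} {χ : E → E'} {C : Set E} {y : E'} {N : ℕ}
    {p : stdSimplex ℝ (Fin (N + 1)) × (Fin (N + 1) → extBar F)} (hp : p ∈ Rep F χ C N)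
    (hy : ∀ i, χ (p.2 i) = y) :
    (C ∩ convexHull ℝ (extBar F ∩ χ ⁻¹' {y})).Nonempty := by
  refine ⟨_, hp.2, ?_⟩
  exact (convex_convexHull ℝ _).sum_mem (fun i _ => p.1.2.1 i) p.1.2.2
    fun i _ => subset_convexHull ℝ _ ⟨(p.2 i).2, hy i⟩

end Flow

/-! ### The main theorem -/

section Main

variable {G : Type*} [Group G] [TopologicalSpace G]
  {EP : Type*} [AddCommGroup EP] [Module ℝ EP] [TopologicalSpace EP] [T2Space EP]
  [IsTopologicalAddGroup EP] [ContinuousSMul ℝ EP] [LocallyConvexSpace ℝ EP]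
  {EL : Type*} [AddCommGroup EL] [Module ℝ EL] [TopologicalSpace EL] [T2Space EL]
  [IsTopologicalAddGroup EL] [ContinuousSMul ℝ EL] [LocallyConvexSpace ℝ EL]
  {EK : Type*} [AddCommGroup EK] [Module ℝ EK] [TopologicalSpace EK] [T2Space EK]
  [IsTopologicalAddGroup EK] [ContinuousSMul ℝ EK] [LocallyConvexSpace ℝ EK]

/-- The homeomorphism of the closure of the set of extreme points given by `g`. -/
def actHomeo (F : AffineFlow G EK) (g : G) : extBar F ≃ₜ extBar F where
  toFun x := ⟨F.act g x, inv_extBar F g _ x.2⟩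
  invFun x := ⟨F.act g⁻¹ x, inv_extBar F g⁻¹ _ x.2⟩
  left_inv x := Subtype.ext (act_inv_act F g (extBar_subset F x.2))
  right_inv x := Subtype.ext (act_act_inv F g (extBar_subset F x.2))
  continuous_toFun :=
    (((act_continuousOn F g).mono (extBar_subset F)).domRestrict).subtype_mk _
  continuous_invFun :=
    (((act_continuousOn F g⁻¹).mono (extBar_subset F)).domRestrict).subtype_mk _

lemma continuous_rep_apply {F : AffineFlow G EP} {χ : EP → EK} (hχ : ContinuousOn χ F.carrier)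
    (N : ℕ) : Continuous fun p : stdSimplex ℝ (Fin (N + 1)) × (Fin (N + 1) → extBar F) =>
      χ (p.2 0) := by
  have hχ' : Continuous fun v : extBar F => χ v :=
    (hχ.mono (extBar_subset F)).domRestrict
  exact hχ'.comp ((continuous_apply 0).comp continuous_snd)

lemma continuous_rep_sum (F : AffineFlow G EP)
    (N : ℕ) : Continuous fun p : stdSimplex ℝ (Fin (N + 1)) × (Fin (N + 1) → extBar F) =>
      ∑ i, p.1.1 i • (p.2 i : EP) := by
  refine continuous_finsetSum _ fun i _ => ?_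
  exact ((continuous_apply i).comp (continuous_subtype_val.comp continuous_fst)).smul
    (continuous_subtype_val.comp ((continuous_apply i).comp continuous_snd))

/-- Part (B). -/
lemma partB {FP : AffineFlow G EP} {FK : AffineFlow G EK} {χ : EP → EK}
    (hχ : IsAffineExtension FP FK χ) {C : Set EP} (hC : IsAffineSubflow FP C)
    (h : ∀ y ∈ extBar FK, (C ∩ convexHull ℝ (extBar FP ∩ χ ⁻¹' {y})).Nonempty) :
    ∃ B : ℕ → Set EK, (∀ N, IsCompact (B N)) ∧ (∀ N, Inv FK (B N)) ∧
      (∀ N, ∀ y ∈ extBar FK, y ∉ B N → ∃ p ∈ Rep FP χ C N, ∀ i, χ (p.2 i) = y) ∧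
      (extBar FK ⊆ closure (extBar FK \ ⋂ N, B N)) := by
  have : CompactSpace (extBar FK) := isCompact_iff_compactSpace.1 (isCompact_extBar FK)
  let f : ℕ → Set (extBar FK) := fun N => {y | ∃ p ∈ Rep FP χ C N, ∀ i, χ (p.2 i) = y}
  have hfc : ∀ N, IsClosed (f N) := by
    intro N
    have h1 : IsClosed ((fun p : stdSimplex ℝ (Fin (N + 1)) × (Fin (N + 1) → extBar FP) =>
        χ (p.2 0)) '' Rep FP χ C N) :=
      ((isCompact_rep FP hχ.continuousOn hC.isCompact.isClosed N).image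
        (continuous_rep_apply hχ.continuousOn N)).isClosed
    convert h1.preimage continuous_subtype_val using 1
    ext y
    constructor
    · rintro ⟨p, hp, hy⟩
      exact ⟨p, hp, hy 0⟩
    · rintro ⟨p, hp, hy⟩
      exact ⟨p, hp, fun i => (hp.1 i 0).trans hy⟩
  have hfu : ⋃ N, f N = univ := by
    rw [eq_univ_iff_forall]
    intro y
    obtain ⟨N, p, hp, hy⟩ := exists_rep (h y y.2)
    exact mem_iUnion.2 ⟨N, p, hp, hy⟩
  have hdense := dense_iUnion_interior_of_closed hfc hfu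
  have hfinv : ∀ N g, ∀ y ∈ f N, actHomeo FK g y ∈ f N := by
    rintro N g y ⟨p, hp, hy⟩
    obtain ⟨q, hq, -, hq2⟩ := rep_act hχ hC.act_mem g hp
    exact ⟨q, hq, fun i => by rw [hq2 i, hy i]; rfl⟩
  refine ⟨fun N => Subtype.val '' (interior (f N))ᶜ, fun N => ?_, fun N => ?_, fun N => ?_, ?_⟩
  · exact (isOpen_interior.isClosed_compl.isCompact).image continuous_subtype_val
  · rintro g _ ⟨y, hy, rfl⟩
    refine ⟨actHomeo FK g y, fun hcon => hy ?_, rfl⟩
    have h1 : y ∈ actHomeo FK g ⁻¹' interior (f N) := hcon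
    rw [(actHomeo FK g).preimage_interior] at h1
    refine interior_mono ?_ h1
    intro w hw
    have h2 := hfinv N g⁻¹ _ hw
    have h3 : actHomeo FK g⁻¹ (actHomeo FK g w) = w :=
      Subtype.ext (act_inv_act FK g (extBar_subset FK w.2))
    rwa [h3] at h2
  · intro y hy hyB
    have h1 : (⟨y, hy⟩ : extBar FK) ∈ interior (f N) := by
      by_contra hcon
      exact hyB ⟨_, hcon, rfl⟩
    obtain ⟨p, hp, hpy⟩ := interior_subset h1
    exact ⟨p, hp, hpy⟩
  · intro y hy
    have h1 := hdense ⟨y, hy⟩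
    have h2 : y ∈ closure (Subtype.val '' ⋃ N, interior (f N)) :=
      image_closure_subset_closure_image continuous_subtype_val ⟨_, h1, rfl⟩
    refine closure_mono ?_ h2
    rintro _ ⟨w, hw, rfl⟩
    obtain ⟨N, hN⟩ := mem_iUnion.1 hw
    refine ⟨w.2, fun hcon => ?_⟩
    obtain ⟨w', hw', hww'⟩ := mem_iInter.1 hcon N
    rw [Subtype.ext hww'] at hw'
    exact hw' hN

/-- Part (C). -/
lemma partC {FP : AffineFlow G EP} {FL : AffineFlow G EL} {FK : AffineFlow G EK} {ψ : EP → EL}
    {φ : EL → EK} (hψ : IsAffineExtension FP FL ψ) (hφ : IsAffineExtension FL FK φ)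
    (hχ : IsAffineExtension FP FK (φ ∘ ψ))
    (pψ : ProximallyIrreducible FP FL ψ) (pφ : ProximallyIrreducible FL FK φ)
    {C : Set EP} (hC : IsAffineSubflow FP C) {N : ℕ} {B : Set EK} (hB : IsCompact B)
    (hBi : Inv FK B) (hBN : ∀ y ∈ extBar FK, y ∉ B →
      ∃ p ∈ Rep FP (φ ∘ ψ) C N, ∀ i, (φ ∘ ψ) (p.2 i) = y) :
    ∀ z ∈ extBar FL, φ z ∉ B → ∃ p ∈ Rep FP ψ C N, ∀ i, ψ (p.2 i) = z := by
  set CN : Set EP := (fun p : stdSimplex ℝ (Fin (N + 1)) × (Fin (N + 1) → extBar FP) =>
      ∑ i, p.1.1 i • (p.2 i : EP)) '' Rep FP (φ ∘ ψ) C N with hCN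
  have hCNc : IsCompact CN := (isCompact_rep FP hχ.continuousOn hC.isCompact.isClosed N).image
    (continuous_rep_sum FP N)
  have hCNC : CN ⊆ C := by
    rintro _ ⟨p, hp, rfl⟩
    exact hp.2
  have hCNi : Inv FP CN := by
    rintro g _ ⟨p, hp, rfl⟩
    obtain ⟨q, hq, hq1, -⟩ := rep_act hχ hC.act_mem g hp
    exact ⟨q, hq, hq1⟩
  have hCNs : CN ⊆ FP.carrier := hCNC.trans hC.subset
  have hψCN : ψ '' CN ⊆ FL.carrier := by
    rintro _ ⟨x, hx, rfl⟩
    exact hψ.image_eq ▸ ⟨x, hCNs hx, rfl⟩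
  have hcl : IsClosed (FL.carrier ∩ φ ⁻¹' B) :=
    hφ.continuousOn.preimage_isClosed_of_isClosed FL.isCompact.isClosed hB.isClosed
  have hcl' : IsClosed (extBar FL ∩ φ ⁻¹' B) :=
    (hφ.continuousOn.mono (extBar_subset FL)).preimage_isClosed_of_isClosed isClosed_closure
      hB.isClosed
  have h1 : FL.carrier.extremePoints ℝ ⊆ ψ '' CN ∪ (extBar FL ∩ φ ⁻¹' B) := by
    apply ext_subset pφ
    · exact (hCNc.image_of_continuousOn (hψ.continuousOn.mono hCNs)).union
        ((isCompact_extBar FL).of_isClosed_subset hcl' inter_subset_left)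
    · exact inv_union (inv_image hψ hCNi hCNs)
        (inv_preimage hφ (inv_extBar FL) hBi (extBar_subset FL))
    · exact union_subset hψCN (inter_subset_left.trans (extBar_subset FL))
    · intro y hy
      by_cases hyB : y ∈ B
      · obtain ⟨z, hz, rfl⟩ := exists_lift hφ y hy
        exact ⟨z, subset_closure (subset_convexHull _ _ (Or.inr ⟨hz, hyB⟩)),
          subset_convexHull _ _ ⟨hz, rfl⟩⟩
      · obtain ⟨p, hp, hpy⟩ := hBN y hy hyB
        have h2 := map_sum_of_affine FP.convex hψ.affine Finset.univ p.1.1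
          (fun i => (p.2 i : EP)) (fun i _ => p.1.2.1 i) p.1.2.2
          fun i _ => extBar_subset FP (p.2 i).2
        refine ⟨ψ (∑ i, p.1.1 i • (p.2 i : EP)),
          subset_closure (subset_convexHull _ _ (Or.inl ⟨_, ⟨p, hp, rfl⟩, rfl⟩)), ?_⟩
        rw [h2]
        exact (convex_convexHull ℝ _).sum_mem (fun i _ => p.1.2.1 i) p.1.2.2
          fun i _ => subset_convexHull ℝ _ ⟨maps_extBar hψ pψ _ (p.2 i).2, hpy i⟩
  set Zc : Set EL := (fun p : stdSimplex ℝ (Fin (N + 1)) × (Fin (N + 1) → extBar FP) =>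
      ψ (p.2 0)) '' Rep FP ψ C N with hZc
  have hZcc : IsClosed Zc := ((isCompact_rep FP hψ.continuousOn hC.isCompact.isClosed N).image
    (continuous_rep_apply hψ.continuousOn N)).isClosed
  have h3 : FL.carrier.extremePoints ℝ ∩ (FL.carrier ∩ φ ⁻¹' B)ᶜ ⊆ Zc := by
    rintro z ⟨hz, hzB⟩
    rcases h1 hz with ⟨_, ⟨p, hp, rfl⟩, hpz⟩ | h
    · simp only at hpz
      have h2 := map_sum_of_affine FP.convex hψ.affine Finset.univ p.1.1
          (fun i => (p.2 i : EP)) (fun i _ => p.1.2.1 i) p.1.2.2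
          fun i _ => extBar_subset FP (p.2 i).2
      rw [hpz] at h2
      have h4 := eq_of_sum_extreme FL.convex hz Finset.univ p.1.1 (fun i => ψ (p.2 i))
        (fun i _ => p.1.2.1 i) p.1.2.2 (fun i _ => extBar_subset FL
          (maps_extBar hψ pψ _ (p.2 i).2)) h2.symm
      obtain ⟨i₀, hi₀⟩ : ∃ i, p.1.1 i ≠ 0 := by
        by_contra hcon
        push Not at hcon
        have := p.1.2.2
        simp only [hcon, Finset.sum_const_zero] at this
        exact zero_ne_one this
      have hi₀z : ψ (p.2 i₀) = z := by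
        by_contra hcon
        exact hi₀ (h4 i₀ (Finset.mem_univ _) hcon)
      classical
      let v' : Fin (N + 1) → extBar FP := fun i => if ψ (p.2 i) = z then p.2 i else p.2 i₀
      have hv' : ∀ i, ψ (v' i) = z := by
        intro i
        simp only [v']
        split_ifs with hi
        · exact hi
        · exact hi₀z
      refine ⟨(p.1, v'), ⟨fun i j => (hv' i).trans (hv' j).symm, ?_⟩, hv' 0⟩
      have h5 : ∑ i, p.1.1 i • (v' i : EP) = ∑ i, p.1.1 i • (p.2 i : EP) := by
        apply Finset.sum_congr rfl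
        intro i _
        by_cases hi : ψ (p.2 i) = z
        · simp only [v', if_pos hi]
        · rw [h4 i (Finset.mem_univ _) hi, zero_smul, zero_smul]
      simp only
      rw [h5]
      exact hp.2
    · exact absurd ⟨hz.1, h.2⟩ hzB
  intro z hz hzB
  have h6 : z ∈ (FL.carrier ∩ φ ⁻¹' B)ᶜ ∩ closure (FL.carrier.extremePoints ℝ) :=
    ⟨fun hcon => hzB hcon.2, hz⟩
  have h7 := hcl.isOpen_compl.inter_closure h6
  rw [inter_comm] at h7
  obtain ⟨p, hp, hpz⟩ := closure_minimal h3 hZcc h7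
  exact ⟨p, hp, fun i => (hp.1 i 0).trans hpz⟩

/-- The composition of two proximally irreducible extensions of affine flows of a topological
group `G` is proximally irreducible. -/
theorem result (FK : AffineFlow G EK) (FL : AffineFlow G EL) (FP : AffineFlow G EP)
    (φ : EL → EK) (ψ : EP → EL)
    (hφ : IsAffineExtension FL FK φ) (hψ : IsAffineExtension FP FL ψ)
    (pφ : ProximallyIrreducible FL FK φ) (pψ : ProximallyIrreducible FP FL ψ) :
    IsAffineExtension FP FK (φ ∘ ψ) ∧ ProximallyIrreducible FP FK (φ ∘ ψ) := by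
  have hψm : ∀ x ∈ FP.carrier, ψ x ∈ FL.carrier := fun x hx => hψ.image_eq ▸ ⟨x, hx, rfl⟩
  have hχ : IsAffineExtension FP FK (φ ∘ ψ) := by
    refine ⟨hφ.continuousOn.comp hψ.continuousOn hψm, ?_, ?_, ?_⟩
    · rw [image_comp, hψ.image_eq, hφ.image_eq]
    · intro x hx y hy a b ha hb hab
      simp only [Function.comp]
      rw [hψ.affine x hx y hy a b ha hb hab,
        hφ.affine _ (hψm x hx) _ (hψm y hy) a b ha hb hab]
    · intro g x hx
      simp only [Function.comp]
      rw [hψ.equivariant g x hx, hφ.equivariant g _ (hψm x hx)]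
  refine ⟨hχ, fun C hC h => ?_⟩
  obtain ⟨B, hBc, hBi, hBN, hBd⟩ := partB hχ hC h
  have hC' := fun N => partC hψ hφ hχ pψ pφ hC (hBc N) (hBi N) (hBN N)
  have hBcl : IsClosed (⋂ N, B N) := isClosed_iInter fun N => (hBc N).isClosed
  have hBinv : Inv FK (⋂ N, B N) := fun g x hx => mem_iInter.2 fun N =>
    hBi N g x (mem_iInter.1 hx N)
  have cV := isCompact_extBar FP
  have cZ := isCompact_extBar FL
  have sV := extBar_subset FP
  have sZ := extBar_subset FL
  have mψ := maps_extBar hψ pψ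
  have mφ := maps_extBar hφ pφ
  -- part (D)
  have hclD : IsClosed (extBar FP ∩ (φ ∘ ψ) ⁻¹' ⋂ N, B N) :=
    (hχ.continuousOn.mono sV).preimage_isClosed_of_isClosed isClosed_closure hBcl
  have hD : FP.carrier.extremePoints ℝ ⊆ C ∪ (extBar FP ∩ (φ ∘ ψ) ⁻¹' ⋂ N, B N) := by
    apply ext_subset pψ
    · exact hC.isCompact.union (cV.of_isClosed_subset hclD inter_subset_left)
    · exact inv_union hC.act_mem (inv_preimage hχ (inv_extBar FP) hBinv sV)
    · exact union_subset hC.subset (inter_subset_left.trans sV)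
    · intro z hz
      by_cases hzB : φ z ∈ ⋂ N, B N
      · obtain ⟨v, hv, rfl⟩ := exists_lift hψ z hz
        exact ⟨v, subset_closure (subset_convexHull _ _ (Or.inr ⟨hv, hzB⟩)),
          subset_convexHull _ _ ⟨hv, rfl⟩⟩
      · rw [mem_iInter] at hzB
        push Not at hzB
        obtain ⟨N, hN⟩ := hzB
        obtain ⟨p, hp, hpz⟩ := hC' N z hz hN
        obtain ⟨c, hc, hc'⟩ := rep_nonempty hp hpz
        exact ⟨c, subset_closure (subset_convexHull _ _ (Or.inl hc)), hc'⟩
  -- part (E)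
  have sZ' : extBar FL \ φ ⁻¹' (⋂ N, B N) ⊆ FL.carrier := sdiff_subset.trans sZ
  have iZ' : Inv FL (extBar FL \ φ ⁻¹' (⋂ N, B N)) := by
    rintro g z ⟨hz, hzB⟩
    refine ⟨inv_extBar FL g z hz, fun hcon => hzB ?_⟩
    rw [mem_preimage, hφ.equivariant g z (sZ hz)] at hcon
    have := hBinv g⁻¹ _ hcon
    rwa [act_inv_act FK g (extBar_subset FK (mφ z hz))] at this
  have hZ' : closure (extBar FL \ φ ⁻¹' (⋂ N, B N)) ⊆ extBar FL :=
    closure_minimal sdiff_subset isClosed_closure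
  have cZ' : IsCompact (closure (extBar FL \ φ ⁻¹' (⋂ N, B N))) :=
    cZ.of_isClosed_subset isClosed_closure hZ'
  have hE1 : FL.carrier.extremePoints ℝ ⊆ closure (extBar FL \ φ ⁻¹' (⋂ N, B N)) := by
    apply ext_subset pφ cZ' (iZ'.closure sZ') (hZ'.trans sZ)
    intro y hy
    have h1 : IsClosed (φ '' closure (extBar FL \ φ ⁻¹' (⋂ N, B N))) :=
      (cZ'.image_of_continuousOn (hφ.continuousOn.mono (hZ'.trans sZ))).isClosed
    have h2 : extBar FK \ ⋂ N, B N ⊆ φ '' closure (extBar FL \ φ ⁻¹' (⋂ N, B N)) := by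
      rintro w ⟨hw, hwB⟩
      obtain ⟨z, hz, rfl⟩ := exists_lift hφ w hw
      exact ⟨z, subset_closure ⟨hz, hwB⟩, rfl⟩
    obtain ⟨z, hz, rfl⟩ := closure_minimal h2 h1 (hBd hy)
    exact ⟨z, subset_closure (subset_convexHull _ _ hz), subset_convexHull _ _ ⟨hZ' hz, rfl⟩⟩
  have hE1' : extBar FL ⊆ closure (extBar FL \ φ ⁻¹' (⋂ N, B N)) :=
    closure_minimal hE1 isClosed_closure
  have sV' : extBar FP \ (φ ∘ ψ) ⁻¹' (⋂ N, B N) ⊆ FP.carrier := sdiff_subset.trans sV
  have iV' : Inv FP (extBar FP \ (φ ∘ ψ) ⁻¹' (⋂ N, B N)) := by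
    rintro g z ⟨hz, hzB⟩
    refine ⟨inv_extBar FP g z hz, fun hcon => hzB ?_⟩
    rw [mem_preimage, hχ.equivariant g z (sV hz)] at hcon
    have := hBinv g⁻¹ _ hcon
    rw [Function.comp_apply, act_inv_act FK g (extBar_subset FK (mφ _ (mψ z hz)))] at this
    exact this
  have hV' : closure (extBar FP \ (φ ∘ ψ) ⁻¹' (⋂ N, B N)) ⊆ extBar FP :=
    closure_minimal sdiff_subset isClosed_closure
  have cV' : IsCompact (closure (extBar FP \ (φ ∘ ψ) ⁻¹' (⋂ N, B N))) :=
    cV.of_isClosed_subset isClosed_closure hV'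
  have hE2 : FP.carrier.extremePoints ℝ ⊆ closure (extBar FP \ (φ ∘ ψ) ⁻¹' (⋂ N, B N)) := by
    apply ext_subset pψ cV' (iV'.closure sV') (hV'.trans sV)
    intro z hz
    have h1 : IsClosed (ψ '' closure (extBar FP \ (φ ∘ ψ) ⁻¹' (⋂ N, B N))) :=
      (cV'.image_of_continuousOn (hψ.continuousOn.mono (hV'.trans sV))).isClosed
    have h2 : extBar FL \ φ ⁻¹' (⋂ N, B N) ⊆
        ψ '' closure (extBar FP \ (φ ∘ ψ) ⁻¹' (⋂ N, B N)) := by
      rintro w ⟨hw, hwB⟩
      obtain ⟨v, hv, rfl⟩ := exists_lift hψ w hw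
      exact ⟨v, subset_closure ⟨hv, hwB⟩, rfl⟩
    obtain ⟨v, hv, rfl⟩ := closure_minimal h2 h1 (hE1' hz)
    exact ⟨v, subset_closure (subset_convexHull _ _ hv), subset_convexHull _ _ ⟨hV' hv, rfl⟩⟩
  have hcl2 : IsClosed (FP.carrier ∩ (φ ∘ ψ) ⁻¹' ⋂ N, B N) :=
    hχ.continuousOn.preimage_isClosed_of_isClosed FP.isCompact.isClosed hBcl
  have hE3 : FP.carrier.extremePoints ℝ ∩ (FP.carrier ∩ (φ ∘ ψ) ⁻¹' ⋂ N, B N)ᶜ ⊆ C := by
    rintro v ⟨hv, hvB⟩
    rcases hD hv with h | h
    · exact h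
    · exact absurd ⟨hv.1, h.2⟩ hvB
  have hE4 : extBar FP \ (φ ∘ ψ) ⁻¹' (⋂ N, B N) ⊆ C := by
    rintro v ⟨hv, hvB⟩
    have h6 : v ∈ (FP.carrier ∩ (φ ∘ ψ) ⁻¹' ⋂ N, B N)ᶜ ∩
        closure (FP.carrier.extremePoints ℝ) := ⟨fun hcon => hvB hcon.2, hv⟩
    have h7 := hcl2.isOpen_compl.inter_closure h6
    rw [inter_comm] at h7
    exact closure_minimal hE3 hC.isCompact.isClosed h7
  have hE5 : FP.carrier.extremePoints ℝ ⊆ C :=
    hE2.trans (closure_minimal hE4 hC.isCompact.isClosed)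
  apply hC.subset.antisymm
  rw [← closure_convexHull_extremePoints FP.isCompact FP.convex]
  exact closure_minimal (convexHull_min hE5 hC.convex) hC.isCompact.isClosed

end Main

end Pool.Agent.Results.MP_d4114f_an.CompositionProxIrreducible
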